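import Pool.Agent.T6.H26.WExample

set_option autoImplicit false

/-! # Denef's question for every prime: weighted cones and Thom-Sebastiani sums over them

The definitions are in `Pool/Agent/T6/H26/TSCDefs.lean` and `Pool/Agent/T6/H26/DTSDefs.lean`. Ideals
are given by finitely many generators with rational coefficients.

`WGood` is the smallest class of ideals which contains the nonzero ideals of `ℚ[x, y]` and the unit
ideals, is closed under sums and products in disjoint sets of variables, and has the following property
(`wcone`): let `f_1, ..., f_r` be **weighted homogeneous polynomials of the same degree** `d > 0` in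
`x_0, ..., x_n`, for weights `w_i ≥ 0`, not all zero (the variables of weight zero are parameters),
such that `n + 1` of the functions `f_j` and of the variables of weight zero have a nonzero Jacobian
determinant. If the ideals of `f_1, ..., f_r` on the hyperplanes `x_i = c`, `w_i > 0`, `c ≠ 0`, are in
the class, then `(f_1, ..., f_r)` is in the class.

`TSC WBase` is the closure of `WGood` and of the class `DTS` under the operations of Thom-Sebastiani
type: sums and products of ideals in disjoint sets of variables, `∑ y_j f_j(x)`,
`∑ y_j f_j(x) + g(z)`, products of powers of forms over ideals, dropping variables. `DTS` is the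
closure, under the same operations, of the monomial ideals, the ideals of `ℚ[x, y]`, the plane curves,
the **products of determinantal ideals** (generic, symmetric, skew symmetric matrices) and the products
of ideals of linear subspaces whose irreducible flats are Rees flats.

For every polynomial `F` with integer coefficients such that the ideal `(F)` is in `TSC WBase false`
and for EVERY prime `p` (no prime is excluded: also the primes which divide the weights or the
coefficients), the number `t₀ = -log |T₀| / log p` is a root of `b_F` for every pole `T₀` of Igusa's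
Poincare series `∑ a_m (p ^ (-n) T) ^ m` of `F`. This answers Denef's question for these `F`.

Method. The Poincare series is `(1 - T Z(T)) / (1 - T)`, `Z` the zeta function as a rational
function of `T = p ^ (-s)`, so that its poles, with their orders, are the ones of `Z`. (a) Weighted
cones: the units are divided into classes modulo `p ^ N` on which `x_i` is a rational constant `c` times a
`w_i`-th power (`wcone_step`), so that all charts `x_i = c` contribute, and the contributions of the
scalings by `p ^ e`, `e ≤ w`, are added up, with the result
`(1 - p ^ (-|w|) T ^ d) Z = ∑ (zeta functions of charts)`, `|w| = w_0 + ... + w_n`. (b) The number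
`-|w| / d` is a root of all functional equations of the ideal (`wroot`): the exceptional divisor of the
weighted blow-up is a Rees divisor of the ideal. (c) A functional equation of the ideal restricts to a
functional equation, with the same `b`, of the ideal on `x_i = c` (`functionalEq_dehw`), by the weighted
Euler identity. (d) The determinantal ideals: Schur complements and Rees divisors. (e) The
Thom-Sebastiani operations: Hadamard products of the volume series, and microlocal functional
equations, with the orders of the poles and the multiplicities of the roots (`tsc_main`). -/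

namespace Pool.Agent.Results.MP_5d9b3c_ag.WeightedCones

open MvPolynomial Pool.Agent.H628R4.TP Pool.Agent.Y230.PT Pool.Agent.Y230.TH Pool.Agent.T6.H26
open Pool.Agent.Y230.PS Pool.Agent.R852.PP Pool.Agent.W427.SMC Pool.Agent.TH192.DT

/-- `∑_j y_j f_j(x) + g(z)`, with further variables `y_j`; the variables `x` and `z` are disjoint. -/
noncomputable def tsForm {σ ι τ : Type} [Fintype ι] (f : ι → MvPolynomial σ ℤ)
    (g : MvPolynomial τ ℤ) : MvPolynomial ((ι ⊕ σ) ⊕ τ) ℤ :=
  rename Sum.inl (∑ j, X (Sum.inl j) * rename Sum.inr (f j) : MvPolynomial (ι ⊕ σ) ℤ) +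
    rename Sum.inr g

theorem map_tsForm {σ ι τ : Type} [Fintype σ] [Fintype ι] [Fintype τ]
    (f : ι → MvPolynomial σ ℤ) (g : MvPolynomial τ ℤ) :
    (⟨(ι ⊕ σ) ⊕ τ, Fin 1, fun _ => map (Int.castRingHom ℚ) (tsForm f g)⟩ : FamQ) =
      Pool.Agent.Y230.TH.tsum ⟨σ, ι, fun j => map (Int.castRingHom ℚ) (f j)⟩ τ
        (map (Int.castRingHom ℚ) g) := by
  unfold Pool.Agent.Y230.TH.tsum tsForm
  congr 1
  funext _
  simp only [map_add, map_sum, map_mul, map_X, map_rename]

/-- **Denef's question for the hypersurfaces of the class `TSC WBase` and every prime `p`.**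
(1) Let `b` satisfy a functional equation `b(s) F ^ s = P(s) F ^ (s + 1)`, for instance `b = b_F`,
and let `(F)` be in the class `TSC WBase false`. Then the Poincare series of `F` is the expansion at
`0` of a rational function `Φ`, and for every pole `T₀` of `Φ`, that is, for every root `T₀` of the
reduced denominator of `Φ`, the number `t₀ = -log |T₀| / log p` is a root of `b`.
(2) Let `f_1, ..., f_r` be weighted homogeneous polynomials of the same degree `d > 0` in **three**
variables, for weights `w_i ≥ 0`, not all zero, such that the Jacobian determinant of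
three of the functions `f_j` (with `w_i > 0`) and of the variables `x_i` (with `w_i = 0`) is not zero.
Let `g ≠ 0` be any polynomial in two variables. Then the polynomial
`∑ y_j f_j(x_0, x_1, x_2) + g(z_1, z_2)` is in the class. The same is true for **any number** of
variables `x_0, ..., x_n`, if for every `w_i > 0` a power of `x_i` is in the ideal
`(f_1, ..., f_r)` of `ℚ[x]`. (3) The class contains `∑_J y_J M_J(x) + g(z_1, z_2)`, where the `M_J` are
the products of minors (Pfaffians) of the sizes `q t`, one for each `t`, of a generic or symmetric
(skew symmetric) matrix `x` of variables, and belong to proper submatrices. -/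
theorem result :
    (∀ {V : Type} [Fintype V] (F : MvPolynomial V ℤ)
      (_ : TSC WBase false ⟨V, Fin 1, fun _ => map (Int.castRingHom ℚ) F⟩)
      (p : ℕ) [Fact p.Prime]
      (b : Polynomial ℂ) (_ : IsBFunction (map (Int.castRingHom ℂ) F) b),
      ∃ Φ : RatFunc ℂ,
        ((Φ.denom : Polynomial ℂ) : PowerSeries ℂ) * poincare p F =
          ((Φ.num : Polynomial ℂ) : PowerSeries ℂ) ∧
        ∀ T₀ : ℂ, Φ.denom.eval T₀ = 0 → b.eval ((-Real.log ‖T₀‖ / Real.log p : ℝ) : ℂ) = 0) ∧
    (∀ (n r d : ℕ) (_ : 0 < d) (w : Fin (n + 1) → ℕ) (_ : ∃ i, w i ≠ 0)
      (f : Fin r → MvPolynomial (Fin (n + 1)) ℤ)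
      (_ : ∀ j, (map (Int.castRingHom ℚ) (f j)).IsWeightedHomogeneous w d)
      (e : Fin (n + 1) → Fin r)
      (_ : (Matrix.of fun s t => pderiv s
        (if w t = 0 then X t else map (Int.castRingHom ℚ) (f (e t)))).det ≠ 0)
      (_ : n = 2 ∨ ∀ i, w i ≠ 0 → ∃ N : ℕ, X i ^ N ∈
        Ideal.span (Set.range fun j => map (Int.castRingHom ℚ) (f j)))
      (g : MvPolynomial (Fin 2) ℤ), g ≠ 0 →
        TSC WBase false ⟨_, Fin 1, fun _ => map (Int.castRingHom ℚ) (tsForm f g)⟩) ∧
    ∀ (S : MSpace) (T : ℕ) (q : Fin T → ℕ), (∀ t, S.Small (q t)) →
      ∀ g : MvPolynomial (Fin 2) ℤ, g ≠ 0 →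
        TSC WBase false ⟨_, Fin 1, fun _ => map (Int.castRingHom ℚ)
          (tsForm (fun J : (t : Fin T) → S.Idx (q t) => ∏ t, S.minorsZ (q t) (J t)) g)⟩ := by
  have hmap : ∀ {τ : Type} (g : MvPolynomial τ ℤ), g ≠ 0 → map (Int.castRingHom ℚ) g ≠ 0 := by
    intro τ g hg h0
    exact hg (map_injective _ (RingHom.injective_int _) (by rw [h0, map_zero]))
  refine ⟨fun F hF p _ b hb => zr_poin F (tsc_main wbase_main false _ hF) b hb, ?_, ?_⟩
  · intro n r d hd w hw f hf e he hc g hg
    have hW : WGood ⟨Fin (n + 1), Fin r, fun j => map (Int.castRingHom ℚ) (f j)⟩ := by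
      rcases hc with rfl | hc
      · exact wgood_three r d hd w hw _ hf e he
      · exact wgood_primary n r d hd w hw _ hf e he hc
    rw [map_tsForm]
    exact TSC.hyp _ (TSC.ts _ _ _ (TSC.base false _ (WBase.wgood _ hW))
      (TSC.base true _ (WBase.dts true _ (DTS.pts true _ (PTS.curve _ (hmap g hg))))))
  · intro S T q hq g hg
    rw [map_tsForm]
    simp only [map_prod]
    exact TSC.base false _ (WBase.dts false _ (DTS.hyp _ (DTS.ts _ _ _ (DTS.det S T q hq)
      (DTS.pts true _ (PTS.curve _ (hmap g hg))))))

end Pool.Agent.Results.MP_5d9b3c_ag.WeightedCones
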