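import Pool.Agent.T6.H26.FTOnce

set_option autoImplicit false

/-! # Denef's question for every prime: sums, products and powers in disjoint variables

The definitions are in `Pool/Agent/T6/H26/FTDefs.lean`. `ReadOnce S F` says that the polynomial `F` can
be written down, with sums, products, powers (exponents at least 1) and nonzero constant factors,
such that **every variable occurs exactly once**, for instance
`((2 x₁ ^ 2 + x₂ ^ 3) ^ 4 x₃ ^ 5 + 7 x₄ ^ 2 (x₅ ^ 3 - x₆ ^ 2) ^ 3) ^ 2 + x₇ ^ 9`. For these polynomials with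
integer coefficients and for EVERY prime `p`, the number `t₀ = -log |T₀| / log p` is a root of `b_F`
for every pole `T₀` of Igusa's Poincare series `∑ a_m (p ^ (-n) T) ^ m` of `F`. This answers Denef's
question for these `F`.

More generally, this is proved for three classes `RO c` of ideals (`c = Kd.idl`) and hypersurfaces
(`c = Kd.hyp`, `c = Kd.exh`), which contain the starting class `PTS` (monomial ideals, ideals of
`ℚ[x, y]`, plane curves, homogeneous cones, ...) and are closed under the operations of `PTS`. The new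
class `RO Kd.exh` contains all the products of powers of linear forms
`∏_t (∑_j y_{t, j} f_{t, j}(x)) ^ a_t` in new variables `y_{t, j}`, if the ideal `∏_t (f_{t, j})_j ^ a_t`
is in `RO Kd.idl`, and it is closed under **sums** `g₁(x) + g₂(z)`, products `g₁(x) g₂(z)` in disjoint
variables, powers, and constant factors.

Method. (a) `p`-adic part. Let `E_g(u, m) = ∫ exp (2 π i u g(x) / p ^ m) dx` for units `u` of `ℤ_p`.
For all `g` in `RO Kd.exh`, `E_g(u, m)` depends only on `u` modulo a fixed power of `p`, and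
`∑_m E_g(u, m) T ^ m` is a rational function whose poles `T₀` give roots `t₀` of the REDUCED
polynomial `b_g(s) / (s + 1)`. For sums, `E` is multiplicative and the poles are controlled by
Hadamard products. For products and powers one uses the distribution of the angular component of
`g`, which is computed from `E_g` by Fourier inversion (`Ab_mem`) and is invariant under
multiplication by a subgroup `1 + p ^ c ℤ_p` (`inv_int`). For linear forms in new variables the
distribution is computed by the uniqueness of the Haar measure (`lh_map`). (b) Roots. For weighted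
homogeneous `f` of positive degree and all `g`, if `α` is a root of the reduced `b_f(s) / (s + 1)` and
`β` is a root of `b_g(s) / (s + 1)`, then `α + β` is a root of `b_{f(x) + g(z)}(s) / (s + 1)` (`fe_sum`,
`FK_addE`); if `b_g(-k) = 0` and `k ≥ 2`, then `-1` is a double root of `b_{g ^ k}`
(`isB_pow_strong`). -/

namespace Pool.Agent.Results.MP_5d9b3c_ag.ReadOnceEveryPrime

open MvPolynomial Pool.Agent.H628R4.TP Pool.Agent.Y230.PT Pool.Agent.Y230.TH Pool.Agent.T6.H26
open Pool.Agent.Y230.PS Pool.Agent.R852.PP Pool.Agent.W427.SMC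

/-- `(∑_j y_j f_j(x)) ^ a + (∑_k v_k g_k(z)) ^ c`, with further variables `y_j` and `v_k`; the
variables `x` and `z` are disjoint. -/
noncomputable def twoForms {r s : ℕ} (a c : ℕ) (f : Fin r → MvPolynomial (Fin 2) ℤ)
    (g : Fin s → MvPolynomial (Fin 2) ℤ) :
    MvPolynomial ((Fin r ⊕ Fin 2) ⊕ (Fin s ⊕ Fin 2)) ℤ :=
  rename Sum.inl ((∑ j, X (Sum.inl j) * rename Sum.inr (f j)) ^ a) +
    rename Sum.inr ((∑ k, X (Sum.inl k) * rename Sum.inr (g k)) ^ c)

/-- **Denef's question for every prime `p`: sums, products and powers in disjoint variables.**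
(1) Let `b` satisfy a functional equation `b(s) F ^ s = P(s) F ^ (s + 1)`, for instance `b = b_F`,
and let `(F)` be in one of the classes `RO c`. Then the Poincare series of `F` is the expansion at
`0` of a rational function `Φ`, and for every pole `T₀` of `Φ`, that is, for every root `T₀` of the
reduced denominator of `Φ`, the number `t₀ = -log |T₀| / log p` is a root of `b`.
(2) The same is true for all polynomials in which every variable occurs exactly once.
(3) The polynomials `(∑_j y_j f_j(x)) ^ a + (∑_k v_k g_k(z)) ^ c` are in the class `RO Kd.exh`, for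
all `a, c > 0` and all nonzero ideals `(f_j)`, `(g_k)` of `ℚ[x₁, x₂]` and `ℚ[z₁, z₂]`. -/
theorem result :
    (∀ {V : Type} [Fintype V] (F : MvPolynomial V ℤ) (c : Kd)
      (_ : RO c ⟨V, Fin 1, fun _ => map (Int.castRingHom ℚ) F⟩)
      (p : ℕ) [Fact p.Prime]
      (b : Polynomial ℂ) (_ : IsBFunction (map (Int.castRingHom ℂ) F) b),
      ∃ Φ : RatFunc ℂ,
        ((Φ.denom : Polynomial ℂ) : PowerSeries ℂ) * poincare p F =
          ((Φ.num : Polynomial ℂ) : PowerSeries ℂ) ∧
        ∀ T₀ : ℂ, Φ.denom.eval T₀ = 0 → b.eval ((-Real.log ‖T₀‖ / Real.log p : ℝ) : ℂ) = 0) ∧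
    (∀ {V : Type} [Fintype V] [DecidableEq V] (F : MvPolynomial V ℤ) (S : Finset V)
      (_ : ReadOnce S (map (Int.castRingHom ℚ) F))
      (p : ℕ) [Fact p.Prime]
      (b : Polynomial ℂ) (_ : IsBFunction (map (Int.castRingHom ℂ) F) b),
      ∃ Φ : RatFunc ℂ,
        ((Φ.denom : Polynomial ℂ) : PowerSeries ℂ) * poincare p F =
          ((Φ.num : Polynomial ℂ) : PowerSeries ℂ) ∧
        ∀ T₀ : ℂ, Φ.denom.eval T₀ = 0 → b.eval ((-Real.log ‖T₀‖ / Real.log p : ℝ) : ℂ) = 0) ∧
    ∀ (r s a c : ℕ) (_ : 0 < a) (_ : 0 < c) (f : Fin r → MvPolynomial (Fin 2) ℤ)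
      (g : Fin s → MvPolynomial (Fin 2) ℤ) (_ : ∃ j, f j ≠ 0) (_ : ∃ k, g k ≠ 0),
        RO Kd.exh ⟨(Fin r ⊕ Fin 2) ⊕ (Fin s ⊕ Fin 2), Fin 1,
          fun _ => map (Int.castRingHom ℚ) (twoForms a c f g)⟩ := by
  have hmap : ∀ {τ : Type} (g : MvPolynomial τ ℤ), g ≠ 0 → map (Int.castRingHom ℚ) g ≠ 0 := by
    intro τ g hg h0
    exact hg (map_injective _ (RingHom.injective_int _) (by rw [h0, map_zero]))
  have key : ∀ {V : Type} [Fintype V] (F : MvPolynomial V ℤ)
      (_ : RO Kd.idl ⟨V, Fin 1, fun _ => map (Int.castRingHom ℚ) F⟩)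
      (p : ℕ) [Fact p.Prime]
      (b : Polynomial ℂ) (_ : IsBFunction (map (Int.castRingHom ℂ) F) b),
      ∃ Φ : RatFunc ℂ,
        ((Φ.denom : Polynomial ℂ) : PowerSeries ℂ) * poincare p F =
          ((Φ.num : Polynomial ℂ) : PowerSeries ℂ) ∧
        ∀ T₀ : ℂ, Φ.denom.eval T₀ = 0 →
          b.eval ((-Real.log ‖T₀‖ / Real.log p : ℝ) : ℂ) = 0 := by
    intro V _ F hF p _ b hb
    refine zr_poin F ?_ b hb
    obtain ⟨h1, h2⟩ := ro_main (p := p) Kd.idl _ hF
    exact ⟨h1, by simpa using h2⟩
  refine ⟨fun F c hF p _ b hb => key F (ro_idl c _ hF) p b hb,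
    fun F S hF p _ b hb => key F (readonce_idl S _ hF) p b hb, ?_⟩
  intro r s a c ha hc f g hf hg
  have h1 := ro_plane r a ha (fun j => map (Int.castRingHom ℚ) (f j))
    (hf.imp fun j hj => hmap _ hj)
  have h2 := ro_plane s c hc (fun j => map (Int.castRingHom ℚ) (g j))
    (hg.imp fun j hj => hmap _ hj)
  have h3 := RO.addE _ _ _ _ h1 h2
  have e : map (Int.castRingHom ℚ) (twoForms a c f g) =
      rename Sum.inl ((∑ j, X (Sum.inl j) * rename Sum.inr (map (Int.castRingHom ℚ) (f j))) ^ a) +
        rename Sum.inr ((∑ k, X (Sum.inl k) *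
          rename Sum.inr (map (Int.castRingHom ℚ) (g k))) ^ c) := by
    unfold twoForms
    simp only [map_add, map_pow, map_sum, map_mul, map_X, map_rename]
  rw [e]
  exact h3

end Pool.Agent.Results.MP_5d9b3c_ag.ReadOnceEveryPrime
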